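import Mathlib

/-!
# Dowker spaces, σ-disjoint bases and the pseudo-intersection number

Definitions for problem MP_f2e766_lc.
-/

open Set Cardinal

namespace Pool.Agent.H80Dowker

universe u

/-- Every countable open cover has a locally finite open refinement that covers. -/
def CountablyParacompact (X : Type u) [TopologicalSpace X] : Prop :=
  ∀ U : ℕ → Set X, (∀ n, IsOpen (U n)) → (⋃ n, U n) = Set.univ →
    ∃ (ι : Type u) (V : ι → Set X), (∀ i, IsOpen (V i)) ∧ (⋃ i, V i) = Set.univ ∧ LocallyFinite V ∧
      ∀ i, ∃ n, V i ⊆ U n

/-- A Dowker space: normal and `T₁`, but not countably paracompact. -/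
def IsDowker (X : Type u) [TopologicalSpace X] : Prop :=
  T1Space X ∧ NormalSpace X ∧ ¬ CountablyParacompact X

/-- Some base of the topology is a countable union of families of pairwise disjoint sets. -/
def HasSigmaDisjointBase (X : Type u) [TopologicalSpace X] : Prop :=
  ∃ B : ℕ → Set (Set X), (∀ n, (B n).PairwiseDisjoint id) ∧
    TopologicalSpace.IsTopologicalBasis (⋃ n, B n)

/-- A family of subsets of `ℕ` with the strong finite intersection property: every finite
subfamily has infinite intersection. -/
def SFIP (F : Set (Set ℕ)) : Prop :=
  ∀ S : Set (Set ℕ), S ⊆ F → S.Finite → (⋂₀ S).Infinite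

/-- `F` has an infinite pseudo-intersection: an infinite set almost contained in each member. -/
def HasPseudoIntersection (F : Set (Set ℕ)) : Prop :=
  ∃ P : Set ℕ, P.Infinite ∧ ∀ A ∈ F, (P \ A).Finite

/-- The pseudo-intersection number `𝔭`: the least cardinality of a family of subsets of `ℕ` with
the strong finite intersection property and without an infinite pseudo-intersection. -/
noncomputable def pseudoIntersectionNumber : Cardinal.{0} :=
  sInf {κ | ∃ F : Set (Set ℕ), SFIP F ∧ ¬ HasPseudoIntersection F ∧ #F = κ}

end Pool.Agent.H80Dowker
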