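import Pool.Agent.H80Dowker.Defs

open Set Cardinal

namespace Pool.Agent.H80Dowker

universe u

/-! ### The pseudo-intersection number -/

lemma exists_family : ∃ F : Set (Set ℕ), SFIP F ∧ ¬ HasPseudoIntersection F := by
  classical
  let U : Ultrafilter ℕ := Filter.hyperfilter ℕ
  have hinf : ∀ A : Set ℕ, A ∈ U → A.Infinite := by
    intro A hA hfin
    have h1 : Aᶜ ∈ U := Filter.hyperfilter_le_cofinite (by
      rw [Filter.mem_cofinite, compl_compl]; exact hfin)
    exact (Ultrafilter.compl_notMem_iff.mpr hA) h1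
  refine ⟨{A | A ∈ U}, ?_, ?_⟩
  · intro S hS hfin
    apply hinf
    have : (⋂₀ S) ∈ (U : Filter ℕ) := (Filter.sInter_mem hfin).mpr (fun s hs => hS hs)
    exact this
  · rintro ⟨P, hP, hPA⟩
    have := hP.to_subtype
    have : DecidablePred (· ∈ P) := Classical.decPred _
    let f := Nat.orderEmbeddingOfSet P
    have hf : ∀ n, f n ∈ P := fun n => by
      have : f n ∈ Set.range (Nat.orderEmbeddingOfSet P) := ⟨n, rfl⟩
      rwa [Nat.orderEmbeddingOfSet_range] at this
    let P1 : Set ℕ := range (fun n => f (2 * n))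
    let P2 : Set ℕ := range (fun n => f (2 * n + 1))
    have h1 : P1.Infinite := infinite_range_of_injective (fun a b h => by
      have := f.injective h; omega)
    have h2 : P2.Infinite := infinite_range_of_injective (fun a b h => by
      have := f.injective h; omega)
    by_cases hU : P1 ∈ U
    · have := hPA P1 hU
      apply h2
      refine this.subset ?_
      rintro _ ⟨n, rfl⟩
      refine ⟨hf _, ?_⟩
      rintro ⟨m, hm⟩
      have := f.injective hm
      omega
    · have hU' : P1ᶜ ∈ U := Ultrafilter.compl_mem_iff_notMem.mpr hU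
      have := hPA _ hU'
      apply h1
      refine this.subset ?_
      rintro _ ⟨n, rfl⟩
      exact ⟨hf _, fun h => h ⟨n, rfl⟩⟩

lemma p_le_continuum : pseudoIntersectionNumber ≤ Cardinal.continuum := by
  obtain ⟨F, h1, h2⟩ := exists_family
  have h3 : pseudoIntersectionNumber ≤ #F := csInf_le' ⟨F, h1, h2, rfl⟩
  refine h3.trans ?_
  refine (Cardinal.mk_set_le F).trans ?_
  rw [Cardinal.mk_set, Cardinal.mk_nat, Cardinal.two_power_aleph0]

lemma hasPI_of_lt {F : Set (Set ℕ)} (hF : SFIP F) (h : #F < pseudoIntersectionNumber) :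
    HasPseudoIntersection F := by
  by_contra hc
  exact absurd (csInf_le' (s := {κ | ∃ F : Set (Set ℕ), SFIP F ∧ ¬ HasPseudoIntersection F ∧
    #F = κ}) ⟨F, hF, hc, rfl⟩) (not_le.mpr h)

/-- Version for families on a countable infinite set, indexed by a type. -/
lemma exists_pseudo {ι : Type u} {D : Type} [Denumerable D] (T : ι → Set D)
    (hT : ∀ S : Finset ι, (⋂ i ∈ S, T i).Infinite)
    (hcard : #ι < Cardinal.lift.{u} pseudoIntersectionNumber) :
    ∃ P : Set D, P.Infinite ∧ ∀ i, (P \ T i).Finite := by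
  classical
  let e : D ≃ ℕ := Denumerable.eqv D
  let F : Set (Set ℕ) := range (fun i => e '' T i)
  have hF : SFIP F := by
    intro S hS hfin
    -- choose indices
    obtain ⟨J, hJ⟩ : ∃ J : Finset ι, S ⊆ (fun i => e '' T i) '' (J : Set ι) := by
      have := (Set.exists_subset_image_finite_and
        (f := fun i => e '' T i) (s := (Set.univ : Set ι)) (p := fun t => S ⊆ t)).mp
        ⟨S, by rw [image_univ]; exact hS, hfin, Subset.rfl⟩
      obtain ⟨t, -, ht, hSt⟩ := this
      exact ⟨ht.toFinset, by simpa using hSt⟩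
    have h1 := (hT J).image (e.injective.injOn)
    refine h1.mono ?_
    rintro _ ⟨x, hx, rfl⟩
    intro s hs
    obtain ⟨i, hi, rfl⟩ := hJ hs
    exact ⟨x, by
      simp only [mem_iInter] at hx
      exact hx i hi, rfl⟩
  have hc : #F < pseudoIntersectionNumber := by
    rw [← Cardinal.lift_lt.{0, u}]
    refine lt_of_le_of_lt ?_ hcard
    have := Cardinal.mk_range_le_lift (f := (fun i => e '' T i))
    simpa using this
  obtain ⟨P, hP, hPA⟩ := hasPI_of_lt hF hc
  refine ⟨e ⁻¹' P, hP.preimage (by simp [e.surjective.range_eq]), fun i => ?_⟩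
  have := hPA _ ⟨i, rfl⟩
  have h2 : (e ⁻¹' P) \ T i = e ⁻¹' (P \ e '' T i) := by
    ext x
    simp
  rw [h2]
  exact this.preimage e.injective.injOn


/-! ### A countable `T₁`-separating family -/

/-- A countable family of open sets, closed under finite intersections, that separates points in
the `T₁` sense. -/
lemma exists_separating (X : Type u) [TopologicalSpace X] [T1Space X]
    (hB : HasSigmaDisjointBase X) (hX : #X ≤ Cardinal.lift.{u} Cardinal.continuum.{0}) :
    ∃ (K : Type) (_ : Countable K) (_ : Nonempty K) (O : K → Set X), (∀ k, IsOpen (O k)) ∧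
      ∀ x z, x ≠ z → ∃ k, x ∈ O k ∧ z ∉ O k := by
  classical
  obtain ⟨B, hdisj, hbase⟩ := hB
  -- an injection of X into Set ℕ
  obtain ⟨φ⟩ : Nonempty (X ↪ Set ℕ) := by
    rw [← Cardinal.lift_mk_le']
    simpa [Cardinal.mk_set] using hX
  -- choice of a colour for each set
  let col : Set X → Set ℕ := fun U => if h : U.Nonempty then φ h.some else ∅
  have hcol : ∀ U V : Set X, U.Nonempty → V.Nonempty → Disjoint U V → col U ≠ col V := by
    intro U V hU hV hUV h
    simp only [col, hU, hV, dif_pos] at h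
    have h1 := φ.injective h
    exact hUV.ne_of_mem hU.some_mem hV.some_mem h1
  let O : ℕ × ℕ × Bool → Set X := fun k => ⋃₀ {U | U ∈ B k.1 ∧ (decide (k.2.1 ∈ col U)) = k.2.2}
  refine ⟨ℕ × ℕ × Bool, inferInstance, inferInstance, O, ?_, ?_⟩
  · intro k
    apply isOpen_sUnion
    rintro U ⟨hU, -⟩
    exact hbase.isOpen (mem_iUnion.mpr ⟨_, hU⟩)
  · intro x z hxz
    obtain ⟨U, hU, hxU, hUz⟩ := hbase.exists_subset_of_mem_open (show x ∈ ({z}ᶜ : Set X) from hxz)
      isOpen_compl_singleton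
    obtain ⟨n, hn⟩ := mem_iUnion.mp hU
    have hzU : z ∉ U := fun h => hUz h rfl
    by_cases hz : ∃ V ∈ B n, z ∈ V
    · obtain ⟨V, hV, hzV⟩ := hz
      have hne : U ≠ V := by
        rintro rfl; exact hzU hzV
      have hd : Disjoint U V := hdisj n hn hV hne
      have hc := hcol U V ⟨x, hxU⟩ ⟨z, hzV⟩ hd
      obtain ⟨m, hm⟩ : ∃ m, ¬ (m ∈ col U ↔ m ∈ col V) := by
        by_contra hcon
        push Not at hcon
        exact hc (Set.ext hcon)
      refine ⟨(n, m, decide (m ∈ col U)), ⟨U, ⟨hn, rfl⟩, hxU⟩, ?_⟩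
      rintro ⟨W, ⟨hW, hWc⟩, hzW⟩
      have hWV : W = V := by
        by_contra hne'
        exact (hdisj n hW hV hne').ne_of_mem hzW hzV rfl
      subst hWV
      simp only at hWc
      apply hm
      rw [← decide_eq_decide]
      exact hWc.symm
    · refine ⟨(n, 0, decide (0 ∈ col U)), ⟨U, ⟨hn, rfl⟩, hxU⟩, ?_⟩
      rintro ⟨W, ⟨hW, -⟩, hzW⟩
      exact hz ⟨W, hW, hzW⟩

/-- Sequence version, with each set repeated infinitely often and finite separation. -/
lemma exists_sequence (X : Type u) [TopologicalSpace X] [T1Space X]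
    (hB : HasSigmaDisjointBase X) (hX : #X ≤ Cardinal.lift.{u} Cardinal.continuum.{0}) :
    ∃ O : ℕ → Set X, (∀ k, IsOpen (O k)) ∧
      ∀ (x : X) (S : Finset X), x ∉ S → ∀ N, ∃ k, N ≤ k ∧ x ∈ O k ∧ ∀ z ∈ S, z ∉ O k := by
  classical
  obtain ⟨K, _, _, O, hO, hsep⟩ := exists_separating X hB hX
  -- enumerate Finset K × ℕ
  obtain ⟨e, he⟩ := exists_surjective_nat (Finset K)
  let O' : ℕ → Set X := fun n => ⋂ k ∈ e (Nat.unpair n).1, O k
  refine ⟨O', fun n => isOpen_biInter_finset fun k _ => hO k, ?_⟩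
  intro x S hx N
  have h1 : ∀ z : X, ∃ k, z ∈ S → x ∈ O k ∧ z ∉ O k := by
    intro z
    by_cases hz : z ∈ S
    · obtain ⟨k, hk⟩ := hsep x z (fun h => hx (h ▸ hz))
      exact ⟨k, fun _ => hk⟩
    · exact ⟨Classical.arbitrary K, fun h => absurd h hz⟩
  choose g hg using h1
  obtain ⟨a, ha⟩ := he (S.image g)
  refine ⟨Nat.pair a N, Nat.right_le_pair _ _, ?_, ?_⟩
  · simp only [O', Nat.unpair_pair, ha, mem_iInter]
    intro k hk
    obtain ⟨z, hz, rfl⟩ := Finset.mem_image.mp hk
    exact (hg z hz).1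
  · intro z hz h
    simp only [O', Nat.unpair_pair, ha, mem_iInter] at h
    exact (hg z hz).2 (h _ (Finset.mem_image_of_mem g hz))

/-! ### Every subset is a `G_δ` -/

lemma subset_gdelta_of_infinite (X : Type u) [TopologicalSpace X] [T1Space X] [Infinite X]
    (hB : HasSigmaDisjointBase X) (hX : #X < Cardinal.lift.{u} pseudoIntersectionNumber)
    (A : Set X) : ∃ U : ℕ → Set X, (∀ n, IsOpen (U n)) ∧ A = ⋂ n, U n := by
  classical
  rcases A.eq_empty_or_nonempty with rfl | ⟨a, ha⟩
  · exact ⟨fun _ => ∅, fun _ => isOpen_empty, (Set.iInter_const _).symm⟩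
  have hXc : #X ≤ Cardinal.lift.{u} Cardinal.continuum.{0} :=
    hX.le.trans (Cardinal.lift_le.mpr p_le_continuum)
  obtain ⟨O, hO, hsep⟩ := exists_sequence X hB hXc
  let T : X × ℕ → Set (Finset ℕ) := fun p =>
    if p.1 ∈ A then {s | ∃ i ∈ s, p.2 ≤ i ∧ p.1 ∈ O i} else {s | ∀ i ∈ s, p.1 ∉ O i}
  have hSFIP : ∀ S : Finset (X × ℕ), (⋂ i ∈ S, T i).Infinite := by
    intro S
    -- the points outside `A`
    let Z : Finset X := (S.image Prod.fst).filter (· ∉ A)
    intro hfin
    -- bound for all members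
    obtain ⟨M, hM⟩ : ∃ M : ℕ, ∀ s ∈ (⋂ i ∈ S, T i), ∀ i ∈ s, i < M := by
      refine ⟨(hfin.toFinset.sup id).sup id + 1, fun s hs i hi => ?_⟩
      have h1 : s ⊆ hfin.toFinset.sup id := by
        have := Finset.le_sup (f := id) (hfin.mem_toFinset.mpr hs)
        exact this
      exact Nat.lt_succ_of_le (Finset.le_sup (f := id) (h1 hi))
    have h1 : ∀ p : X × ℕ, ∃ k, p.1 ∈ A → max M p.2 ≤ k ∧ p.1 ∈ O k ∧ ∀ z ∈ Z, z ∉ O k := by
      intro p
      by_cases hp : p.1 ∈ A
      · obtain ⟨k, hk⟩ := hsep p.1 Z (fun h => (Finset.mem_filter.mp h).2 hp) (max M p.2)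
        exact ⟨k, fun _ => hk⟩
      · exact ⟨0, fun h => absurd h hp⟩
    choose g hg using h1
    let s : Finset ℕ := ((insert (a, 0) S).filter (fun p => p.1 ∈ A)).image g
    have hs : s ∈ ⋂ i ∈ S, T i := by
      simp only [mem_iInter]
      intro p hp
      by_cases hpA : p.1 ∈ A
      · simp only [T, hpA, if_true]
        refine ⟨g p, Finset.mem_image_of_mem g (Finset.mem_filter.mpr
          ⟨Finset.mem_insert_of_mem hp, hpA⟩), ?_, (hg p hpA).2.1⟩
        exact (le_max_right _ _).trans (hg p hpA).1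
      · simp only [T, hpA, if_false]
        intro i hi
        obtain ⟨q, hq, rfl⟩ := Finset.mem_image.mp hi
        have hqA := (Finset.mem_filter.mp hq).2
        exact (hg q hqA).2.2 p.1 (Finset.mem_filter.mpr ⟨Finset.mem_image_of_mem _ hp, hpA⟩)
    have h2 : g (a, 0) ∈ s := Finset.mem_image_of_mem g (Finset.mem_filter.mpr
      ⟨Finset.mem_insert_self _ _, ha⟩)
    have h3 := hM s hs _ h2
    have h4 := (le_max_left M 0).trans (hg (a, 0) ha).1
    omega
  have hcard : #(X × ℕ) < Cardinal.lift.{u} pseudoIntersectionNumber := by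
    have : #(X × ℕ) = #X := by
      rw [Cardinal.mk_prod]
      simp only [Cardinal.lift_uzero, Cardinal.mk_nat, Cardinal.lift_aleph0]
      exact Cardinal.mul_aleph0_eq (Cardinal.aleph0_le_mk X)
    rw [this]; exact hX
  have : Denumerable (Finset ℕ) := Denumerable.finset
  obtain ⟨P, hP, hPT⟩ := exists_pseudo T hSFIP hcard
  let d : Set ℕ := {i | ∃ s ∈ P, i ∈ s}
  refine ⟨fun n => ⋃ i ∈ {i | i ∈ d ∧ n ≤ i}, O i, fun n =>
    isOpen_biUnion fun i _ => hO i, ?_⟩
  ext x
  simp only [mem_iInter, mem_iUnion]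
  constructor
  · intro hx n
    obtain ⟨s, hs⟩ := (hP.sdiff (hPT (x, n))).nonempty
    have hsP : s ∈ P := hs.1
    have hsT : s ∈ T (x, n) := by
      by_contra h; exact hs.2 ⟨hsP, h⟩
    simp only [T, hx, if_true] at hsT
    obtain ⟨i, hi, hni, hxi⟩ := hsT
    exact ⟨i, ⟨⟨s, hsP, hi⟩, hni⟩, hxi⟩
  · intro h
    by_contra hx
    have hfin := hPT (x, 0)
    -- bound
    let M := (hfin.toFinset.sup id).sup id + 1
    obtain ⟨i, ⟨⟨s, hsP, hi⟩, hMi⟩, hxi⟩ := h M
    have hsT : s ∉ T (x, 0) := by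
      simp only [T, hx, if_false]
      intro h
      exact h i hi hxi
    have h1 : s ⊆ hfin.toFinset.sup id := by
      have := Finset.le_sup (f := id) (hfin.mem_toFinset.mpr (show s ∈ P \ T (x, 0) from ⟨hsP, hsT⟩))
      exact this
    have h2 := Finset.le_sup (f := id) (h1 hi)
    simp only [id, M] at h2 hMi
    omega

lemma subset_gdelta (X : Type u) [TopologicalSpace X] [T1Space X]
    (hB : HasSigmaDisjointBase X) (hX : #X < Cardinal.lift.{u} pseudoIntersectionNumber)
    (A : Set X) : ∃ U : ℕ → Set X, (∀ n, IsOpen (U n)) ∧ A = ⋂ n, U n := by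
  rcases finite_or_infinite X with h | h
  · refine ⟨fun _ => A, fun _ => ?_, (Set.iInter_const _).symm⟩
    rw [← isClosed_compl_iff]
    exact (Set.toFinite _).isClosed
  · exact subset_gdelta_of_infinite X hB hX A

/-! ### Perfect normality implies countable paracompactness -/

lemma countablyParacompact_of_perfect (X : Type u) [TopologicalSpace X] [NormalSpace X]
    (h : ∀ A : Set X, IsClosed A → ∃ U : ℕ → Set X, (∀ n, IsOpen (U n)) ∧ A = ⋂ n, U n) :
    CountablyParacompact X := by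
  classical
  intro U hU hcov
  -- increasing unions
  let W : ℕ → Set X := fun n => ⋃ i ∈ Finset.range (n + 1), U i
  have hW : ∀ n, IsOpen (W n) := fun n => isOpen_biUnion fun i _ => hU i
  have hWmono : ∀ m n, m ≤ n → W m ⊆ W n := by
    intro m n hmn x hx
    simp only [W, mem_iUnion, Finset.mem_range] at hx ⊢
    obtain ⟨i, hi, hxi⟩ := hx
    exact ⟨i, by omega, hxi⟩
  have h1 : ∀ n, ∃ V : ℕ → Set X, (∀ j, IsOpen (V j)) ∧ (W n)ᶜ = ⋂ j, V j := fun n =>
    h _ (hW n).isClosed_compl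
  choose V hV hWV using h1
  -- closed sets
  let D : ℕ → Set X := fun m => (V (Nat.unpair m).1 (Nat.unpair m).2)ᶜ
  have hD : ∀ m, IsClosed (D m) := fun m => (hV _ _).isClosed_compl
  have hDW : ∀ m, D m ⊆ W m := by
    intro m x hx
    apply hWmono _ _ (Nat.unpair_left_le m)
    by_contra hc
    have : x ∈ (W (Nat.unpair m).1)ᶜ := hc
    rw [hWV] at this
    exact hx (mem_iInter.mp this _)
  have hDcov : ∀ x, ∃ m, x ∈ D m := by
    intro x
    obtain ⟨n, hn⟩ := mem_iUnion.mp (hcov.symm ▸ mem_univ x : x ∈ ⋃ n, U n)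
    have hx : x ∉ (W n)ᶜ := by
      simp only [mem_compl_iff, not_not, W, mem_iUnion, Finset.mem_range]
      exact ⟨n, by omega, hn⟩
    rw [hWV, mem_iInter] at hx
    push Not at hx
    obtain ⟨j, hj⟩ := hx
    exact ⟨Nat.pair n j, by simpa [D] using hj⟩
  have h2 : ∀ m, ∃ G, IsOpen G ∧ D m ⊆ G ∧ closure G ⊆ W m := fun m => by
    obtain ⟨G, hG, h3, h4⟩ := normal_exists_closure_subset (hD m) (hW m) (hDW m)
    exact ⟨G, hG, h3, h4⟩
  choose G hG hDG hGW using h2
  refine ⟨ULift ℕ, fun n => U n.down \ ⋃ i ∈ Finset.range n.down, closure (G i), ?_, ?_, ?_, ?_⟩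
  · intro n
    exact (hU _).sdiff (isClosed_biUnion_finset fun i _ => isClosed_closure)
  · rw [eq_univ_iff_forall]
    intro x
    have hx : ∃ n, x ∈ U n := mem_iUnion.mp (hcov.symm ▸ mem_univ x : x ∈ ⋃ n, U n)
    refine mem_iUnion.mpr ⟨⟨Nat.find hx⟩, Nat.find_spec hx, ?_⟩
    simp only [mem_iUnion, Finset.mem_range, not_exists]
    intro i hi hxi
    have := hGW i hxi
    simp only [W, mem_iUnion, Finset.mem_range] at this
    obtain ⟨j, hj, hxj⟩ := this
    exact Nat.find_min hx (show j < Nat.find hx by omega) hxj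
  · intro x
    obtain ⟨m, hm⟩ := hDcov x
    refine ⟨G m, (hG m).mem_nhds (hDG m hm), ?_⟩
    have : Set.Finite {n : ULift.{u} ℕ | n.down ≤ m} :=
      (Set.finite_le_nat m).preimage (ULift.down_injective.injOn)
    refine this.subset ?_
    rintro n ⟨y, ⟨-, hy1⟩, hy2⟩
    simp only [mem_iUnion, Finset.mem_range, not_exists] at hy1
    show n.down ≤ m
    by_contra hc
    exact hy1 m (by omega) (subset_closure hy2)
  · intro n
    exact ⟨n.down, sdiff_subset⟩

theorem dowker_card (X : Type u) [TopologicalSpace X] (hD : IsDowker X)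
    (hB : HasSigmaDisjointBase X) : Cardinal.lift.{u} pseudoIntersectionNumber ≤ #X := by
  obtain ⟨h1, h2, h3⟩ := hD
  by_contra hc
  exact h3 (countablyParacompact_of_perfect X fun A _ => subset_gdelta X hB (not_le.mp hc) A)

end Pool.Agent.H80Dowker
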